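import Pool.Agent.KS6_40.LZ.Slices

/-! Isometric copies of the target space. -/

set_option autoImplicit false

open Set Topology Filter

universe u v w

namespace Pool.Agent.KS6_40.LZ

open Pool.Agent.R280.Lip

variable {M : Type u} [MetricSpace M] {o : M} {X : Type v} [NormedAddCommGroup X] [NormedSpace ℝ X]

/-- `v ↦ φ ⊗ v` for a scalar function `φ` of norm one -/
lemma exists_tensor (φ : LipZ M o ℝ) (hφ : ‖φ‖ = 1) :
    ∃ T : X →ₗᵢ[ℝ] LipZ M o X, ∀ v x, (T v).fn x = φ.fn x • v := by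
  let T0 : X →ₗ[ℝ] LipZ M o X :=
    { toFun := fun v => LipZ.mk' (fun x => φ.fn x • v) (by simp) (‖φ‖ * ‖v‖) (by positivity)
        (fun x y => by
          rw [← sub_smul, norm_smul]
          have := mul_le_mul_of_nonneg_right (φ.sub_le x y) (norm_nonneg v)
          linarith)
      map_add' := fun v w => LipZ.ext fun x => by
        rw [LipZ.fn_add, LipZ.fn_mk, LipZ.fn_mk, LipZ.fn_mk, smul_add]
      map_smul' := fun c v => LipZ.ext fun x => by
        rw [RingHom.id_apply, LipZ.fn_smul, LipZ.fn_mk, LipZ.fn_mk, smul_comm] }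
  have hT0 : ∀ v x, (T0 v).fn x = φ.fn x • v := fun v x => rfl
  refine ⟨⟨T0, fun v => ?_⟩, hT0⟩
  apply le_antisymm
  · refine LipZ.norm_le_of _ (norm_nonneg _) fun x y => ?_
    rw [hT0, hT0, ← sub_smul, norm_smul]
    have := mul_le_mul_of_nonneg_right (φ.sub_le x y) (norm_nonneg v)
    rw [hφ, one_mul] at this
    linarith
  · rcases eq_or_ne v 0 with rfl | hv
    · rw [norm_zero]; exact norm_nonneg _
    have hv0 : 0 < ‖v‖ := norm_pos_iff.2 hv
    have h1 : ‖φ‖ ≤ ‖T0 v‖ / ‖v‖ := by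
      refine LipZ.norm_le_of _ (by positivity) fun x y => ?_
      have h2 := (T0 v).sub_le x y
      rw [hT0, hT0, ← sub_smul, norm_smul] at h2
      rw [div_mul_eq_mul_div, le_div_iff₀ hv0]
      exact h2
    rwa [hφ, le_div_iff₀ hv0, one_mul] at h1

/-- one isometric copy of `Y` serves a finite family of slices -/
theorem copies (hM : Good M) (n : ℕ) (f : Fin n → (LipZ M o X →L[ℝ] ℝ)) (α : Fin n → ℝ)
    (hf : ∀ i, ‖f i‖ = 1) (hα : ∀ i, 0 < α i) (ε : ℝ) (hε : 0 < ε) :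
    ∃ (x : Fin n → LipZ M o X) (T : X →ₗᵢ[ℝ] LipZ M o X),
      ∀ (i : Fin n) (v : X), ‖v‖ ≤ 1 - ε → x i + T v ∈ slice (f i) (α i) := by
  set ε' : ℝ := min ε (1 / 2) with hε'
  have hε0 : 0 < ε' := lt_min hε (by norm_num)
  have hε1 : ε' ≤ 1 / 2 := min_le_right _ _
  have hε2 : ε' ≤ ε := min_le_left _ _
  obtain ⟨c, u, x, huc, hx⟩ := main hM n f α hf hα ε' hε0
  have hr0 : 0 < dist u c := dist_pos.2 huc
  set t : M → ℝ := tent u (dist u c) ε' with ht
  let τ : LipZ M o ℝ := LipZ.mk' (fun y => t y - t o) (sub_self _) 1 zero_le_one (fun y z => by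
    rw [sub_sub_sub_cancel_right, one_mul, Real.norm_eq_abs]
    exact tent_sub y z)
  have hτ : ∀ y, τ.fn y = t y - t o := fun y => rfl
  have hτ0 : τ ≠ 0 := by
    intro h0
    have e1 : τ.fn u - τ.fn c = 0 := by rw [h0]; simp
    rw [hτ, hτ, sub_sub_sub_cancel_right] at e1
    have ht1 : t u = (1 - ε') * dist u c := by
      rw [ht]
      unfold tent
      rw [dist_self, sub_zero, max_eq_right]
      exact mul_nonneg (by linarith) hr0.le
    have ht2 : t c = 0 := by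
      rw [ht]
      unfold tent
      rw [dist_comm c u, max_eq_left]
      have h5 := mul_pos hε0 hr0
      linarith
    rw [ht1, ht2, sub_zero] at e1
    have := mul_pos (show (0 : ℝ) < 1 - ε' by linarith) hr0
    linarith
  have hτn : 0 < ‖τ‖ := norm_pos_iff.2 hτ0
  have hφ : ‖(‖τ‖⁻¹ • τ : LipZ M o ℝ)‖ = 1 := by
    rw [norm_smul, norm_inv, norm_norm, inv_mul_cancel₀ hτn.ne']
  obtain ⟨T, hT⟩ := exists_tensor (X := X) _ hφ
  refine ⟨x, T, fun i v hv => ?_⟩
  refine hx i (fun y => (‖τ‖⁻¹ * t y) • v) (T v) ?_ ?_ ?_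
  · intro y z
    rw [← sub_smul, ← mul_sub, norm_smul, norm_mul, norm_inv, norm_norm]
    have e1 := τ.sub_le y z
    rw [hτ, hτ, sub_sub_sub_cancel_right] at e1
    have e2 : ‖τ‖⁻¹ * ‖t y - t z‖ ≤ dist y z := by
      rw [inv_mul_le_iff₀ hτn]; exact e1
    calc ‖τ‖⁻¹ * ‖t y - t z‖ * ‖v‖ ≤ dist y z * (1 - ε') :=
          mul_le_mul e2 (by linarith) (norm_nonneg _) dist_nonneg
      _ = (1 - ε') * dist y z := mul_comm _ _
  · intro y hy
    have hty : tent u (dist u c) ε' y ≠ 0 := by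
      intro e; apply hy
      show (‖τ‖⁻¹ * t y) • v = 0
      rw [ht, e]; simp
    obtain ⟨a1, a2⟩ := tent_range (c := c) rfl hε0 hr0 hty
    exact ⟨a1.le, a2.le⟩
  · intro y
    rw [hT, LipZ.fn_smul, hτ, smul_eq_mul, ← sub_smul, mul_sub]

/-- convex combinations of slices -/
theorem comb (hM : Good M) (n : ℕ) (lam : Fin n → ℝ) (f : Fin n → (LipZ M o X →L[ℝ] ℝ))
    (α : Fin n → ℝ) (hsum : ∑ i, lam i = 1) (hf : ∀ i, ‖f i‖ = 1) (hα : ∀ i, 0 < α i)
    (ε : ℝ) (hε : 0 < ε) :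
    ∃ (a : LipZ M o X) (T : X →ₗᵢ[ℝ] LipZ M o X),
      ∀ v : X, ‖v‖ ≤ 1 - ε → a + T v ∈ convComb lam fun i => slice (f i) (α i) := by
  obtain ⟨x, T, hx⟩ := copies hM n f α hf hα ε hε
  refine ⟨∑ i, lam i • x i, T, fun v hv => ⟨fun i => x i + T v, fun i => hx i v hv, ?_⟩⟩
  simp only [smul_add, Finset.sum_add_distrib, ← Finset.sum_smul, hsum, one_smul]

end Pool.Agent.KS6_40.LZ
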