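import Pool.Graph.R_seed8.R280.LipSD2P

/-! Slices of the unit ball of `Lip_0(M, Y)` contain translates of large balls. -/

set_option autoImplicit false

open Set Topology Filter

universe u v w

namespace Pool.Agent.KS6_40.LZ

open Pool.Agent.R280.Lip

variable {M : Type u} [MetricSpace M] {o : M} {X : Type v} [NormedAddCommGroup X] [NormedSpace ℝ X]

/-- `H` vanishes off the annulus `δ d(u,c) ≤ d(x,c) ≤ 2 d(u,c)` -/
def OffAnnulus (δ : ℝ) (c u : M) (H : M → X) : Prop :=
  ∀ x, H x ≠ 0 → δ * dist u c ≤ dist x c ∧ dist x c ≤ 2 * dist u c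

noncomputable def B (c u : M) (δ : ℝ) (f H : M → X) (x : M) : X :=
  chi c (dist u c) δ x • (f c - f x) + H x

lemma B_lip {c u : M} {δ : ℝ} (huc : u ≠ c) (hδ : 0 < δ) (hδ1 : δ ≤ 1 / 4) {f H : M → X}
    (hf : ∀ x y, ‖f x - f y‖ ≤ dist x y) (hH : ∀ x y, ‖H x - H y‖ ≤ dist x y)
    (hs : OffAnnulus δ c u H) (x y : M) :
    ‖(f x + B c u δ f H x) - (f y + B c u δ f H y)‖ ≤ (1 + 4 * δ) * dist x y := by
  set r := dist u c with hr
  have hr0 : 0 < r := dist_pos.2 huc
  have hHc : H c = 0 := by
    by_contra h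
    have := (hs c h).1
    rw [dist_self] at this
    have := mul_pos hδ hr0
    rw [hr] at this
    linarith
  have key : ∀ x y : M, dist y c ≤ dist x c →
      ‖(f x + B c u δ f H x) - (f y + B c u δ f H y)‖ ≤ (1 + 4 * δ) * dist x y := by
    intro x y hxy
    have h1 : (f x + B c u δ f H x) - (f y + B c u δ f H y) =
        (1 - chi c r δ x) • (f x - f y) + (chi c r δ x - chi c r δ y) • (f c - f y) +
          (H x - H y) := by
      unfold B
      simp only [sub_smul, smul_sub, one_smul]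
      abel
    have hc := chi_mem (c := c) hr0 hδ (by linarith) x
    have h2 : ‖(1 - chi c r δ x) • (f x - f y)‖ ≤ (1 - chi c r δ x) * dist x y := by
      rw [norm_smul, Real.norm_of_nonneg (by linarith [hc.2])]
      exact mul_le_mul_of_nonneg_left (hf x y) (by linarith [hc.2])
    have h3 : ‖(chi c r δ x - chi c r δ y) • (f c - f y)‖ ≤ 2 * δ * dist x y := by
      rw [norm_smul, Real.norm_eq_abs]
      refine le_trans (mul_le_mul_of_nonneg_left (hf c y) (abs_nonneg _)) ?_
      rw [dist_comm c y]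
      exact chi_sub hr0 hδ hxy
    have h5 := norm_add₃_le (a := (1 - chi c r δ x) • (f x - f y))
      (b := (chi c r δ x - chi c r δ y) • (f c - f y)) (c := H x - H y)
    rw [h1]
    have hd := dist_nonneg (x := x) (y := y)
    have hcd : (1 - chi c r δ x) * dist x y ≤ 1 * dist x y :=
      mul_le_mul_of_nonneg_right (by linarith [hc.1]) hd
    have hδd : 0 ≤ δ * dist x y := mul_nonneg hδ.le hd
    by_cases hx : chi c r δ x = 1
    · have e1 : (1 - chi c r δ x) * dist x y = 0 := by rw [hx]; ring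
      have := hH x y
      linarith
    · have htx : H x = 0 := by
        by_contra hne
        obtain ⟨h6, h7⟩ := hs x hne
        apply hx
        refine chi_one hr0 hδ h6 (h7.trans ?_)
        rw [le_div_iff₀ hδ, hr]
        nlinarith
      by_cases hty : H y = 0
      · have e1 : ‖H x - H y‖ = 0 := by rw [htx, hty]; simp
        linarith
      · obtain ⟨h6, h7⟩ := hs y hty
        have h8 : 2 * r / δ < dist x c := by
          by_contra hcon
          push Not at hcon
          exact hx (chi_one hr0 hδ (h6.trans hxy) hcon)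
        have h9 : 2 * r ≤ 2 * δ * dist x y := by
          have h10 := dist_triangle x y c
          rw [div_lt_iff₀ hδ] at h8
          rw [← hr] at h7
          nlinarith
        have h10 : ‖H x - H y‖ ≤ 2 * δ * dist x y := by
          rw [htx, zero_sub, norm_neg]
          have := hH y c
          rw [hHc, sub_zero] at this
          rw [← hr] at h7
          linarith
        linarith
  rcases le_total (dist y c) (dist x c) with h | h
  · exact key x y h
  · have := key y x h
    rwa [norm_sub_rev, dist_comm] at this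

lemma B_lip' {c u : M} {δ : ℝ} (huc : u ≠ c) (hδ : 0 < δ) (hδ1 : δ ≤ 1 / 4) {f H : M → X}
    (hf : ∀ x y, ‖f x - f y‖ ≤ dist x y) (hH : ∀ x y, ‖H x - H y‖ ≤ dist x y)
    (hs : OffAnnulus δ c u H) (x y : M) :
    ‖B c u δ f H x - B c u δ f H y‖ ≤ 3 * dist x y := by
  have h1 := B_lip huc hδ hδ1 hf hH hs x y
  have h2 : B c u δ f H x - B c u δ f H y =
      ((f x + B c u δ f H x) - (f y + B c u δ f H y)) - (f x - f y) := by abel
  have h3 := norm_sub_le ((f x + B c u δ f H x) - (f y + B c u δ f H y)) (f x - f y)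
  rw [← h2] at h3
  have h4 := hf x y
  have h5 := dist_nonneg (x := x) (y := y)
  nlinarith

lemma B_ne {c u : M} {δ : ℝ} (huc : u ≠ c) (hδ : 0 < δ) (hδ1 : δ ≤ 1 / 4) {f H : M → X}
    (hs : OffAnnulus δ c u H) {x : M} (h : B c u δ f H x ≠ 0) :
    x ∈ ann (2 / δ * Real.exp δ⁻¹) c u := by
  have hr0 : 0 < dist u c := dist_pos.2 huc
  have h1 : chi c (dist u c) δ x ≠ 0 := by
    intro h0
    apply h
    have h2 : H x = 0 := by
      by_contra hne
      obtain ⟨h6, h7⟩ := hs x hne
      have h8 := chi_one (c := c) hr0 hδ h6 (h7.trans (by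
        rw [le_div_iff₀ hδ]
        nlinarith))
      rw [h0] at h8
      exact zero_ne_one h8
    unfold B
    rw [h0, h2, zero_smul, add_zero]
  exact chi_ne hr0 hδ (by linarith) h1

/-- a finite family of slices contains translates of the maps supported in one annulus -/
theorem main (hM : Good M) (n : ℕ) (f : Fin n → (LipZ M o X →L[ℝ] ℝ)) (α : Fin n → ℝ)
    (hf : ∀ i, ‖f i‖ = 1) (hα : ∀ i, 0 < α i) (ε : ℝ) (hε : 0 < ε) :
    ∃ (c u : M) (x : Fin n → LipZ M o X), u ≠ c ∧
      ∀ (i : Fin n) (H : M → X) (h : LipZ M o X),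
        (∀ y z, ‖H y - H z‖ ≤ (1 - ε) * dist y z) → OffAnnulus ε c u H →
        (∀ y, h.fn y = H y - H o) → x i + h ∈ slice (f i) (α i) := by
  classical
  obtain ⟨α0, hα0, hα0', hα1⟩ : ∃ α0 : ℝ, 0 < α0 ∧ (∀ i, α0 ≤ α i) ∧ α0 ≤ 1 := by
    rcases Nat.eq_zero_or_pos n with rfl | hn
    · exact ⟨1, one_pos, fun i => i.elim0, le_rfl⟩
    · have : Nonempty (Fin n) := ⟨⟨0, hn⟩⟩
      obtain ⟨i, -, hi⟩ := Finset.exists_min_image Finset.univ α Finset.univ_nonempty
      exact ⟨min (α i) 1, lt_min (hα i) one_pos, fun j => (min_le_left _ _).trans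
        (hi j (Finset.mem_univ j)), min_le_right _ _⟩
  set η : ℝ := α0 / 2 with hηdef
  have hη : 0 < η := half_pos hα0
  set δ : ℝ := min (min (1 / 4) (ε / 4)) (α0 / 16) with hδdef
  have hδ : 0 < δ := lt_min (lt_min (by norm_num) (by positivity)) (by positivity)
  have hδ1 : δ ≤ 1 / 4 := (min_le_left _ _).trans (min_le_left _ _)
  have hδ2 : 4 * δ ≤ ε := by
    have : δ ≤ ε / 4 := (min_le_left _ _).trans (min_le_right _ _)
    linarith
  have hδ3 : 16 * δ ≤ α0 := by
    have : δ ≤ α0 / 16 := min_le_right _ _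
    linarith
  obtain ⟨N, hN⟩ := exists_nat_gt (12 * n / η)
  have hN0 : (0 : ℝ) < N := lt_of_le_of_lt (by positivity) hN
  -- almost norming elements
  have hg : ∀ i, ∃ g : LipZ M o X, ‖g‖ ≤ 1 ∧ 1 - η / 4 < f i g := by
    intro i
    obtain ⟨z, hz1, hz2⟩ := (f i).exists_lt_apply_of_lt_opNorm (show 1 - η / 4 < ‖f i‖ by
      rw [hf]; linarith)
    rw [Real.norm_eq_abs] at hz2
    rcases lt_abs.1 hz2 with h | h
    · exact ⟨z, hz1.le, h⟩
    · exact ⟨-z, by rw [norm_neg]; exact hz1.le, by rwa [map_neg]⟩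
  choose g hg1 hg2 using hg
  have hglip : ∀ i x y, ‖(g i).fn x - (g i).fn y‖ ≤ dist x y := fun i x y =>
    ((g i).sub_le x y).trans (mul_le_of_le_one_left dist_nonneg (hg1 i))
  have hL : 1 < 2 / δ * Real.exp δ⁻¹ := by
    have h1 : 1 ≤ Real.exp δ⁻¹ := Real.one_le_exp (inv_nonneg.2 hδ.le)
    have h2 : 8 ≤ 2 / δ := by
      rw [le_div_iff₀ hδ]; linarith
    nlinarith
  obtain ⟨c, u, huc, hdis⟩ := hM N _ hL
  -- elements of the space
  have hex : ∀ (i : Fin n) (k : Fin N) (H : M → X), (∀ y z, ‖H y - H z‖ ≤ dist y z) →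
      OffAnnulus δ (c k) (u k) H → ∃ b : LipZ M o X,
      ∀ x, b.fn x = B (c k) (u k) δ (g i).fn H x - B (c k) (u k) δ (g i).fn H o := by
    intro i k H h1 h2
    exact ⟨LipZ.mk' (fun x => B (c k) (u k) δ (g i).fn H x - B (c k) (u k) δ (g i).fn H o)
      (sub_self _) 3 (by norm_num) (fun x y => by
      rw [sub_sub_sub_cancel_right]
      exact B_lip' (huc k) hδ hδ1 (hglip i) h1 h2 x y), fun x => rfl⟩
  -- a good annulus
  obtain ⟨k, hk⟩ : ∃ k : Fin N, ∀ (i : Fin n) (H : M → X) (b : LipZ M o X),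
      (∀ y z, ‖H y - H z‖ ≤ dist y z) → OffAnnulus δ (c k) (u k) H →
      (∀ x, b.fn x = B (c k) (u k) δ (g i).fn H x - B (c k) (u k) δ (g i).fn H o) →
      -(η / 2) ≤ f i b := by
    by_contra hcon
    push Not at hcon
    choose i H b h1 h2 h3 h4 using hcon
    let b' : Fin n → Fin N → M → X := fun j k =>
      if i k = j then B (c k) (u k) δ (g (i k)).fn (H k) else 0
    have hb1 : ∀ j k x y, ‖b' j k x - b' j k y‖ ≤ 3 * dist x y := by
      intro j k x y
      by_cases hj : i k = j
      · simp only [b', if_pos hj]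
        exact B_lip' (huc k) hδ hδ1 (hglip _) (h1 k) (h2 k) x y
      · simp only [b', if_neg hj]
        simp
    have hb2 : ∀ j k x, b' j k x ≠ 0 → x ∈ ann (2 / δ * Real.exp δ⁻¹) (c k) (u k) := by
      intro j k x hne
      by_cases hj : i k = j
      · simp only [b', if_pos hj] at hne
        exact B_ne (huc k) hδ hδ1 (h2 k) hne
      · simp only [b', if_neg hj] at hne
        exact absurd rfl hne
    have hsum : ∀ j, ‖∑ k, (if i k = j then b k else 0)‖ ≤ 6 := by
      intro j
      refine LipZ.norm_le_of _ (by norm_num) fun x y => ?_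
      have e1 := LipZ.evd_apply x y (∑ k, (if i k = j then b k else 0))
      rw [← e1, map_sum]
      have e2 : ∀ k, LipZ.evd x y (if i k = j then b k else 0) = b' j k x - b' j k y := by
        intro k
        by_cases hj : i k = j
        · simp only [b', if_pos hj]
          rw [LipZ.evd_apply, h3, h3, sub_sub_sub_cancel_right]
        · simp only [b', if_neg hj, map_zero]
          simp
      simp only [e2]
      exact sum_disjoint hdis (fun k x h => hb2 j k x h) (fun k x y => hb1 j k x y) x y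
    have hlow : ∀ j, -6 ≤ ∑ k, (if i k = j then f j (b k) else 0) := by
      intro j
      have e1 : ∑ k, (if i k = j then f j (b k) else 0) =
          f j (∑ k, (if i k = j then b k else 0)) := by
        rw [map_sum]
        refine Finset.sum_congr rfl fun k _ => ?_
        split_ifs
        · rfl
        · rw [map_zero]
      rw [e1]
      have e2 := (f j).le_opNorm (∑ k, (if i k = j then b k else 0))
      rw [hf, one_mul, Real.norm_eq_abs] at e2
      linarith [(abs_le.1 e2).1, hsum j]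
    have htot : ∑ j, ∑ k, (if i k = j then f j (b k) else 0) ≤ -(N * (η / 2)) := by
      rw [Finset.sum_comm]
      have e1 : ∀ k, ∑ j, (if i k = j then f j (b k) else 0) = f (i k) (b k) := by
        intro k
        rw [Finset.sum_ite_eq]
        simp
      simp only [e1]
      have e2 : ∑ k : Fin N, f (i k) (b k) ≤ ∑ _k : Fin N, -(η / 2) :=
        Finset.sum_le_sum fun k _ => (h4 k).le
      rw [Finset.sum_const, Finset.card_univ, Fintype.card_fin, nsmul_eq_mul] at e2
      linarith
    have htot2 : -(6 * n : ℝ) ≤ ∑ j, ∑ k, (if i k = j then f j (b k) else 0) := by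
      have e2 : ∑ _j : Fin n, (-6 : ℝ) ≤ ∑ j, ∑ k, (if i k = j then f j (b k) else 0) :=
        Finset.sum_le_sum fun j _ => hlow j
      rw [Finset.sum_const, Finset.card_univ, Fintype.card_fin, nsmul_eq_mul] at e2
      linarith
    rw [div_lt_iff₀ hη] at hN
    linarith
  have h4δ : 0 < 1 + 4 * δ := by positivity
  have hz0 : OffAnnulus δ (c k) (u k) (fun _ => (0 : X)) := fun x h => absurd rfl h
  have hzl : ∀ y z : M, ‖(fun _ => (0 : X)) y - (fun _ => (0 : X)) z‖ ≤ dist y z := by
    intro y z; simp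
  choose G hG using fun i => hex i k (fun _ => (0 : X)) hzl hz0
  refine ⟨c k, u k, fun i => (1 + 4 * δ)⁻¹ • (g i + G i), huc k, ?_⟩
  intro i H h hH hs hh
  set H' : M → X := fun y => (1 + 4 * δ) • H y with hH'
  have hH'l : ∀ y z, ‖H' y - H' z‖ ≤ dist y z := by
    intro y z
    rw [hH', ← smul_sub, norm_smul, Real.norm_of_nonneg h4δ.le]
    have e1 := mul_le_mul_of_nonneg_left (hH y z) h4δ.le
    refine e1.trans ?_
    rw [← mul_assoc]
    refine mul_le_of_le_one_left dist_nonneg ?_
    nlinarith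
  have hH's : OffAnnulus δ (c k) (u k) H' := by
    intro y hy
    have hy' : H y ≠ 0 := by
      intro e; apply hy; rw [hH']; simp [e]
    obtain ⟨a1, a2⟩ := hs y hy'
    refine ⟨le_trans ?_ a1, a2⟩
    exact mul_le_mul_of_nonneg_right (by linarith) dist_nonneg
  obtain ⟨b, hb⟩ := hex i k H' hH'l hH's
  have hbeq : b = G i + (1 + 4 * δ) • h := by
    refine LipZ.ext fun x => ?_
    rw [hb, LipZ.fn_add, LipZ.fn_smul, hG, hh]
    unfold B
    rw [hH']
    simp only [smul_sub]
    abel
  have hxeq : (1 + 4 * δ)⁻¹ • (g i + G i) + h = (1 + 4 * δ)⁻¹ • (g i + b) := by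
    rw [hbeq, smul_add, smul_add, smul_add, smul_smul, inv_mul_cancel₀ h4δ.ne', one_smul,
      add_assoc]
  rw [hxeq]
  have hnorm : ‖g i + b‖ ≤ 1 + 4 * δ := by
    refine LipZ.norm_le_of _ h4δ.le fun x y => ?_
    rw [LipZ.fn_add, LipZ.fn_add, hb, hb]
    refine le_trans (le_of_eq ?_) (B_lip (huc k) hδ hδ1 (hglip i) hH'l hH's x y)
    congr 1; abel
  refine ⟨?_, ?_⟩
  · rw [norm_smul, norm_inv, Real.norm_of_nonneg h4δ.le, inv_mul_le_iff₀ h4δ, mul_one]
    exact hnorm
  · rw [map_smul, smul_eq_mul, ← div_eq_inv_mul, lt_div_iff₀ h4δ, map_add]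
    have e1 := hk i H' b hH'l hH's hb
    have e2 := hg2 i
    have e3 := hα0' i
    have e4 : (1 - α i) * (1 + 4 * δ) ≤ (1 - α0) * (1 + 4 * δ) :=
      mul_le_mul_of_nonneg_right (by linarith) h4δ.le
    have e5 : 0 ≤ α0 * δ := by positivity
    nlinarith

end Pool.Agent.KS6_40.LZ
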